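import Pool.Agent.H7.KSAT.S1Defs

/-!
# Exclusion: saturation inside an event
-/

set_option autoImplicit false

namespace Pool.KSAT

open Finset Real
open Pool.Agent.H49.Ent Pool.Agent.H32.Dense Pool.STK Pool.KA

namespace EXC

lemma pos_cond {Ω T : Type} [Fintype Ω] {p : Ω → ℝ} (hp : ∀ ω, 0 ≤ p ω) {Z : Ω → T} {z : T}
    {ω : Ω} (h : 0 < Pool.Agent.H49.Ent.cond p Z z ω) : Z ω = z ∧ 0 < p ω := by
  unfold Pool.Agent.H49.Ent.cond at h
  split_ifs at h with h1
  · refine ⟨h1, ?_⟩
    by_contra h2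
    have h3 : p ω = 0 := le_antisymm (not_lt.1 h2) (hp ω)
    rw [h3, zero_div] at h
    exact lt_irrefl _ h
  · exact absurd h (lt_irrefl _)

end EXC

open EXC in
open Classical in
theorem exc_thm (hS : SLSatStmt) (hR : RES2Stmt) (hT : TYAStmt) : EXCStmt := by
  intro m n k hk
  obtain ⟨C, hC, h⟩ := hS m n k hk
  refine ⟨C, hC, ?_⟩
  intro J F β b w K a e ρ I pr A hA hwK haK he hb hdet hpr hprA hI hρ hρ1 hNear
  have hp := F.isLaw.nonneg
  have hlpos : 0 < law F.p A true := lt_of_lt_of_le hpr hprA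
  -- the deficit is nonnegative
  have he0 : 0 ≤ e := by
    have h1 : CH F.p F.T (fun ω => (F.l ω, F.Z ω)) ≤ J * Real.log 2 := by
      refine (CH_le_card hp F.isLaw.sum_one F.T _ (fun _ => Finset.range (2 ^ J))
        (fun ω _ => Finset.mem_range.mpr (F.tim ω))).trans ?_
      rw [Ex_const F.isLaw.sum_one, Finset.card_range]
      push_cast
      rw [Real.log_pow]
    unfold Fam.Tm at he
    linarith
  -- the deficit of the restriction
  have hT1 := (hT m J F Bool A e he).2 (fun c hc => ⟨cond_nonneg hp A c, sum_cond F.p A hc.ne'⟩)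
  have hT2 := hT1.2 true hlpos
  have hcard : (Fintype.card Bool : ℝ) = 2 := by simp
  rw [hcard] at hT2
  obtain ⟨F', hF'⟩ : ∃ F', F' = F.res A true hA := ⟨_, rfl⟩
  have hTm : F'.Tm ((e + Real.log 2) / law F.p A true) := by
    rw [hF']
    exact hT2
  have hlog2 : 0 < Real.log 2 := Real.log_pos (by norm_num)
  -- information
  have hR1 := hR F.Ω _ _ _ Bool F.p (F.D K) b
    (fun ω => (F.T1 (w + K) ω, F.X (w + K) ω)) A true F.isLaw hdet
  obtain ⟨I', hI'⟩ : ∃ I', I' = CH (cond F.p A true) (F.D K) b -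
    CH (cond F.p A true) (F.D K) (fun ω => (b ω, F.T1 (w + K) ω, F.X (w + K) ω)) := ⟨_, rfl⟩
  have hI1 : law F.p A true * I' ≤ I := by
    rw [hI']
    exact hR1.trans hI
  have hI0 : 0 ≤ I' := by
    rw [hI']
    have : CH (cond F.p A true) (F.D K) (fun ω => (b ω, F.T1 (w + K) ω, F.X (w + K) ω)) ≤
        CH (cond F.p A true) (F.D K) b :=
      CH_mono_cond (cond_nonneg hp A true) fun ω ω' _ _ e => (Prod.ext_iff.1 e).1
    linarith
  have hI2 : I' ≤ I / pr := by
    rw [le_div_iff₀ hpr]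
    nlinarith
  have key := h J (F.res A true hA) β b w K a ((e + Real.log 2) / law F.p A true) ρ hwK haK
    (by rw [hF'] at hTm; exact hTm) ?_ hρ hρ1 ?_
  · refine le_trans ?_ key
    have e1 : CH (F.res A true hA).p ((F.res A true hA).D K) b -
      CH (F.res A true hA).p ((F.res A true hA).D K)
        (fun ω => (b ω, (F.res A true hA).T1 (w + K) ω, (F.res A true hA).X (w + K) ω)) = I' := by
      rw [hI']; rfl
    rw [e1]
    obtain ⟨L, hL⟩ : ∃ L, L = Real.log (1 / ((n : ℝ) ^ (k + 1) * ρ ^ (n - (k + 1)))) := ⟨_, rfl⟩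
    rw [← hL]
    have hn : (0 : ℝ) < n := by
      have : 0 < n := by omega
      exact_mod_cast this
    have hL0 : 0 < L := by
      rw [hL]
      refine Real.log_pos ?_
      rw [lt_div_iff₀ (by positivity), one_mul]
      exact hρ1
    have ha : 0 ≤ ((k : ℝ) + 2) * (a * Real.log 2) := by positivity
    have h1 : (n : ℝ) * I' + Real.log 2 ≤ n * (I / pr) + Real.log 2 := by
      have := mul_le_mul_of_nonneg_left hI2 hn.le
      linarith
    have h2 : ((n : ℝ) * I' + Real.log 2) / L ≤ (n * (I / pr) + Real.log 2) / L :=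
      div_le_div_of_nonneg_right h1 hL0.le
    have h3 := mul_le_mul_of_nonneg_left (sub_le_sub_left h2 1) ha
    have h4 : (e + Real.log 2) / law F.p A true ≤ (e + Real.log 2) / pr := by
      exact div_le_div_of_nonneg_left (by linarith) hpr hprA
    have h5 : (n : ℝ) * ((e + Real.log 2) / law F.p A true + I') ≤
        n * ((e + Real.log 2) / pr + I / pr) :=
      mul_le_mul_of_nonneg_left (add_le_add h4 hI2) hn.le
    linarith
  · intro ω ω' h1 h2 h3
    exact hb ω ω' (pos_cond hp h1).2 (pos_cond hp h2).2 h3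
  · intro ω h1 v B
    exact hNear ω (pos_cond hp h1).2 (pos_cond hp h1).1 v B

end Pool.KSAT
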